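import Pool.Agent.Y224.AZ.Stm

/-!
# Project AZ: FIN, separation of the variables (helper258)
-/

set_option autoImplicit false

namespace Pool.Agent.Y258.AZ

open Module Pool.Agent.Y224.AZ

variable {K X Y Γ κ ι : Type} [Field K] [AddCommGroup X] [Module K X] [AddCommGroup Y]
  [Module K Y]

/-- the form in the variables `κ` for given values of the other variables -/
def row (T : MF K X Y κ ι) (y : ι → Y) : MultilinearMap K (fun _ : κ => X) K where
  toFun v := T v y
  map_update_add' := by
    intro _ v i a b
    rw [T.map_update_add]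
    rfl
  map_update_smul' := by
    intro _ v i a b
    rw [T.map_update_smul]
    rfl

/-- the variables `ι` first -/
def flipM (T : MF K X Y κ ι) :
    MultilinearMap K (fun _ : ι => Y) (MultilinearMap K (fun _ : κ => X) K) where
  toFun y := row T y
  map_update_add' := by
    intro _ y i a b
    ext v
    exact (T v).map_update_add y i a b
  map_update_smul' := by
    intro _ y i a b
    ext v
    exact (T v).map_update_smul y i a b

/-- product of two forms -/
def prodF (P : MultilinearMap K (fun _ : κ => X) K) (w : MultilinearMap K (fun _ : ι => Y) K) :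
    MF K X Y κ ι :=
  (LinearMap.toSpanSingleton K (MultilinearMap K (fun _ : ι => Y) K) w).compMultilinearMap P

theorem prodF_apply (P : MultilinearMap K (fun _ : κ => X) K)
    (w : MultilinearMap K (fun _ : ι => Y) K) (v : κ → X) (y : ι → Y) :
    prodF P w v y = P v * w y := by
  simp [prodF]

/-- dual functionals of an independent family -/
theorem exists_dual {M β : Type} [AddCommGroup M] [Module K M] (b : β → M)
    (hb : LinearIndependent K b) : ∃ l : β → M →ₗ[K] K,
      ∀ x ∈ Submodule.span K (Set.range b), ∀ [Fintype β], x = ∑ i, l i x • b i := by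
  classical
  have h1 : ∀ i, ∃ g : M →ₗ[K] K,
      g ∘ₗ (Submodule.span K (Set.range b)).subtype = (Basis.span hb).coord i :=
    fun i => LinearMap.exists_extend _
  choose l hl using h1
  refine ⟨l, fun x hx _ => ?_⟩
  have h2 := (Basis.span hb).sum_repr ⟨x, hx⟩
  have h3 := congrArg (Submodule.subtype _) h2
  rw [map_sum] at h3
  rw [show (Submodule.span K (Set.range b)).subtype ⟨x, hx⟩ = x from rfl] at h3
  conv_lhs => rw [← h3]
  refine Finset.sum_congr rfl fun i _ => ?_
  have h4 : l i x = (Basis.span hb).repr ⟨x, hx⟩ i := by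
    have := LinearMap.congr_fun (hl i) ⟨x, hx⟩
    simpa using this
  rw [map_smul, h4]
  congr 1
  rw [Basis.span_apply hb i]
  rfl

theorem t_fin : S_FIN := by
  classical
  intro K X Y Γ κ ι _ _ _ _ _ _ _ _ _ _ _ R Q c C T hc hC hT hs
  obtain ⟨b, hbC, hspan, hli⟩ := exists_linearIndependent K C
  have hfin : Finite b := hli.finite
  haveI : Fintype b := Fintype.ofFinite b
  obtain ⟨l, hl⟩ := exists_dual (fun i : b => (i : MultilinearMap K (fun _ : κ => X) K)) hli
  have hr : Set.range (fun i : b => (i : MultilinearMap K (fun _ : κ => X) K)) = b :=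
    Subtype.range_coe
  rw [hr, hspan] at hl
  -- the coordinates
  set w : b → MultilinearMap K (fun _ : ι => Y) K := fun i => (l i).compMultilinearMap (flipM T)
    with hw
  have hrow : ∀ y, row T y = ∑ i : b, w i y • (i : MultilinearMap K (fun _ : κ => X) K) := by
    intro y
    obtain ⟨P, hP, hPT⟩ := hs y
    have e : row T y = P := by
      ext v
      exact hPT v
    have := hl (row T y) (by rw [e]; exact hP)
    exact this
  have hval : ∀ v y, T v y = ∑ i : b, (i : MultilinearMap K (fun _ : κ => X) K) v * w i y := by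
    intro v y
    have h1 := congrArg (fun F : MultilinearMap K (fun _ : κ => X) K => F v) (hrow y)
    have h2 : T v y = (∑ i : b, w i y • (i : MultilinearMap K (fun _ : κ => X) K)) v := h1
    rw [h2, MultilinearMap.sum_apply]
    refine Finset.sum_congr rfl fun i _ => ?_
    rw [MultilinearMap.smul_apply, smul_eq_mul, mul_comm]
  -- the subgroup
  obtain ⟨ΔT, hΔT, hΔT2⟩ := hT
  have hΔ : ∀ i : b, ∃ Δ : Subgroup Γ, Δ.FiniteIndex ∧ ∀ g ∈ Δ, ∀ v,
      (i : MultilinearMap K (fun _ : κ => X) K) (fun j => R g (v j)) =
        c g * (i : MultilinearMap K (fun _ : κ => X) K) v := fun i => hC _ (hbC i.2)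
  choose Δ hΔ1 hΔ2 using hΔ
  haveI := hΔ1
  haveI := hΔT
  have hD : (ΔT ⊓ ⨅ i, Δ i).FiniteIndex := by
    haveI : (⨅ i, Δ i).FiniteIndex := Subgroup.finiteIndex_iInf hΔ1
    infer_instance
  have hwi : ∀ i : b, ∀ g ∈ ΔT ⊓ ⨅ i, Δ i, ∀ y, c g * w i (fun j => Q g (y j)) = w i y := by
    intro i g hg y
    rw [Subgroup.mem_inf, Subgroup.mem_iInf] at hg
    have h1 : ∑ i : b, (c g * w i (fun j => Q g (y j))) •
        (i : MultilinearMap K (fun _ : κ => X) K) =
        ∑ i : b, w i y • (i : MultilinearMap K (fun _ : κ => X) K) := by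
      ext v
      rw [MultilinearMap.sum_apply, MultilinearMap.sum_apply]
      have h2 := hΔT2 g hg.1 v y
      rw [hval, hval] at h2
      simp only [MultilinearMap.smul_apply, smul_eq_mul]
      calc ∑ i : b, c g * w i (fun j => Q g (y j)) * (i : MultilinearMap K (fun _ : κ => X) K) v
          = ∑ i : b, (i : MultilinearMap K (fun _ : κ => X) K) (fun j => R g (v j)) *
              w i (fun j => Q g (y j)) := by
            refine Finset.sum_congr rfl fun i _ => ?_
            rw [hΔ2 i g (hg.2 i) v]
            ring
        _ = ∑ i : b, (i : MultilinearMap K (fun _ : κ => X) K) v * w i y := h2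
        _ = ∑ i : b, w i y * (i : MultilinearMap K (fun _ : κ => X) K) v :=
            Finset.sum_congr rfl fun i _ => mul_comm _ _
    have h3 := Fintype.linearIndependent_iff.1 hli
      (fun i => c g * w i (fun j => Q g (y j)) - w i y) (by
        simp only [sub_smul]
        rw [Finset.sum_sub_distrib, h1, sub_self])
    exact sub_eq_zero.1 (h3 i)
  -- the sum
  have hTs : T = ∑ i : b, prodF (i : MultilinearMap K (fun _ : κ => X) K) (w i) := by
    ext v y
    rw [MultilinearMap.sum_apply, MultilinearMap.sum_apply, hval]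
    exact Finset.sum_congr rfl fun i _ => (prodF_apply _ _ _ _).symm
  rw [hTs]
  refine Submodule.sum_mem _ fun i _ => Submodule.subset_span ?_
  exact ⟨i, hbC i.2, w i, ⟨_, hD, hwi i⟩, fun v y => prodF_apply _ _ _ _⟩

end Pool.Agent.Y258.AZ
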